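import Mathlib
import Pool.Agent.W2helper59.LN.Stm

set_option autoImplicit false

/-! # P4 of the Lin-Ni project (MP_0170ef_an): the a-posteriori step lemma -/

namespace Pool.Agent.W2helper95.LN.P4

open Set Pool.Agent.W2helper59.LN

theorem sol_mono {E : Type*} [NormedAddCommGroup E] [NormedSpace ℝ E] {F : ℝ → E → E} {a b c : ℝ}
    {v q : ℝ → E} (h : SolOn F a b v q) (hc : c ≤ b) : SolOn F a c v q where
  cv := h.cv.mono (Icc_subset_Icc_right hc)
  cq := h.cq.mono (Icc_subset_Icc_right hc)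
  dv := fun t ht => h.dv t ⟨ht.1, ht.2.trans_le hc⟩
  dq := fun t ht => h.dq t ⟨ht.1, ht.2.trans_le hc⟩

/-- the difference `t (v - w)` has derivative `q - r` -/
theorem dP {F G : ℝ → ℂ → ℂ} {a b : ℝ} {v q w r : ℝ → ℂ} (hv : SolOn F a b v q)
    (hw : SolOn G a b w r) : ∀ t ∈ Ioo a b,
      HasDerivAt (fun t : ℝ => t • (v t - w t)) (q t - r t) t := by
  intro t ht
  have h := (hv.dv t ht).sub (hw.dv t ht)
  refine h.congr_of_eventuallyEq (Filter.Eventually.of_forall fun s => ?_)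
  simp only [smul_sub, Pi.sub_apply]

theorem step : P4_step := by
  intro F G a b g θ ε μ0 v q w r ha hab hg hθ hε hμ hv hw hF h0 t ht
  obtain ⟨P, hP⟩ : ∃ P : ℝ → ℂ, P = fun t : ℝ => t • (v t - w t) := ⟨_, rfl⟩
  obtain ⟨D, hD⟩ : ∃ D : ℝ → ℂ, D = fun t : ℝ => q t - r t := ⟨_, rfl⟩
  have hPn : ∀ s, 0 ≤ s → ‖P s‖ = s * ‖v s - w s‖ := by
    intro s hs
    rw [hP]
    simp only [norm_smul, Real.norm_eq_abs, abs_of_nonneg hs]
  have cP : ContinuousOn P (Icc a b) := by
    rw [hP]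
    exact continuousOn_id.smul (hv.cv.sub hw.cv)
  have cD : ContinuousOn D (Icc a b) := by
    rw [hD]
    exact hv.cq.sub hw.cq
  have hdP : ∀ s ∈ Ioo a b, HasDerivAt P (D s) s := by
    intro s hs
    rw [hP, hD]
    exact dP hv hw s hs
  obtain ⟨E, hE⟩ : ∃ E : ℝ → ℂ, E = fun t : ℝ =>
    t • (F t (v t) - G t (w t) - ((g ^ 2 : ℝ) : ℂ) * (v t - w t)) := ⟨_, rfl⟩
  have hEn : ∀ s ∈ Icc a b, ‖E s‖ ≤ θ * ‖P s‖ + ε := by
    intro s hs
    rw [hPn s (ha.trans hs.1), hE]
    exact hF s hs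
  have hdD : ∀ s ∈ Ioo a b, HasDerivAt D (-E s - (g ^ 2 : ℝ) • P s) s := by
    intro s hs
    have h := (hv.dq s hs).sub (hw.dq s hs)
    have e1 : -(s • F s (v s)) - -(s • G s (w s)) = -E s - (g ^ 2 : ℝ) • P s := by
      rw [hE, hP]
      simp only [Complex.real_smul]
      push_cast
      ring
    rw [e1] at h
    rw [hD]
    exact h
  -- the energy
  obtain ⟨N, hN⟩ : ∃ N : ℝ → ℝ, N = fun s => g ^ 2 * ‖P s‖ ^ 2 + ‖D s‖ ^ 2 := ⟨_, rfl⟩
  have hN0 : ∀ s, 0 ≤ N s := fun s => by rw [hN]; positivity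
  have cN : ContinuousOn N (Icc a b) := by
    rw [hN]
    exact (continuousOn_const.mul (cP.norm.pow 2)).add (cD.norm.pow 2)
  have hdN : ∀ s ∈ Ioo a b, HasDerivAt N (-2 * inner ℝ (D s) (E s)) s := by
    intro s hs
    have h1 := (hdP s hs).norm_sq.const_mul (g ^ 2)
    have h2 := (hdD s hs).norm_sq
    have h3 := h1.add h2
    have e1 : g ^ 2 * (2 * inner ℝ (P s) (D s)) + 2 * inner ℝ (D s) (-E s - (g ^ 2 : ℝ) • P s)
        = -2 * inner ℝ (D s) (E s) := by
      rw [inner_sub_right, inner_neg_right, inner_smul_right, real_inner_comm (P s) (D s)]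
      ring
    rw [e1] at h3
    rw [hN]
    exact h3
  have hNb : ∀ s ∈ Icc a b, -2 * inner ℝ (D s) (E s) ≤ 2 * ‖D s‖ * (θ * ‖P s‖ + ε) := by
    intro s hs
    have h1 := abs_real_inner_le_norm (D s) (E s)
    have h2 := (abs_le.1 h1).1
    have h3 := mul_le_mul_of_nonneg_left (hEn s hs) (norm_nonneg (D s))
    nlinarith
  obtain ⟨c, hc⟩ : ∃ c : ℝ, c = θ / (2 * g) := ⟨_, rfl⟩
  have hc0 : 0 ≤ c := by rw [hc]; positivity
  have hcg : 2 * (c * g) = θ := by rw [hc]; field_simp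
  have key : ∀ κ : ℝ, 0 < κ → Real.sqrt (N t) ≤
      (μ0 + κ + ε * (t - a)) * Real.exp (c * (t - a)) := by
    intro κ hκ
    obtain ⟨S, hS⟩ : ∃ S : ℝ → ℝ, S = fun s => Real.sqrt (N s + κ ^ 2) := ⟨_, rfl⟩
    have hpos : ∀ s, 0 < N s + κ ^ 2 := fun s => by have := hN0 s; positivity
    have hS0 : ∀ s, 0 < S s := fun s => by rw [hS]; exact Real.sqrt_pos.2 (hpos s)
    have hS2 : ∀ s, S s ^ 2 = N s + κ ^ 2 := fun s => by
      rw [hS]; exact Real.sq_sqrt (hpos s).le
    have cS : ContinuousOn S (Icc a b) := by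
      rw [hS]
      exact (cN.add continuousOn_const).sqrt
    have hdS : ∀ s ∈ Ioo a b, HasDerivAt S (-2 * inner ℝ (D s) (E s) / (2 * S s)) s := by
      intro s hs
      have h := ((hdN s hs).add_const (κ ^ 2)).sqrt (hpos s).ne'
      rw [hS]
      exact h
    have hSb : ∀ s ∈ Ioo a b, -2 * inner ℝ (D s) (E s) / (2 * S s) ≤ c * S s + ε := by
      intro s hs
      rw [div_le_iff₀ (by have := hS0 s; positivity)]
      refine (hNb s (Ioo_subset_Icc_self hs)).trans ?_
      have hDS : ‖D s‖ ≤ S s := by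
        refine abs_le_of_sq_le_sq' ?_ (hS0 s).le |>.2
        rw [hS2, hN]
        have : 0 ≤ g ^ 2 * ‖P s‖ ^ 2 := by positivity
        nlinarith
      have h1 : 2 * (g * ‖P s‖) * ‖D s‖ ≤ S s ^ 2 := by
        rw [hS2, hN]
        nlinarith [sq_nonneg (g * ‖P s‖ - ‖D s‖), sq_nonneg κ]
      have h2 : 2 * ‖D s‖ * (θ * ‖P s‖) ≤ 2 * (c * S s ^ 2) := by
        have := mul_le_mul_of_nonneg_left h1 hc0
        calc 2 * ‖D s‖ * (θ * ‖P s‖) = 2 * (c * (2 * (g * ‖P s‖) * ‖D s‖)) := by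
              rw [← hcg]; ring
          _ ≤ 2 * (c * S s ^ 2) := by linarith
      have h3 : ε * ‖D s‖ ≤ ε * S s := mul_le_mul_of_nonneg_left hDS hε
      nlinarith
    -- the monotone quantity
    obtain ⟨T, hT⟩ : ∃ T : ℝ → ℝ, T = fun s => S s * Real.exp (-(c * (s - a))) - ε * (s - a) :=
      ⟨_, rfl⟩
    have hdT : ∀ s ∈ Ioo a b, HasDerivAt T
        (-2 * inner ℝ (D s) (E s) / (2 * S s) * Real.exp (-(c * (s - a))) +
          S s * (Real.exp (-(c * (s - a))) * -(c * 1)) - ε * 1) s := by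
      intro s hs
      have h1 : HasDerivAt (fun s : ℝ => -(c * (s - a))) (-(c * 1)) s :=
        (((hasDerivAt_id s).sub_const a).const_mul c).neg
      have h2 := (hdS s hs).mul h1.exp
      have h3 : HasDerivAt (fun s : ℝ => ε * (s - a)) (ε * 1) s :=
        ((hasDerivAt_id s).sub_const a).const_mul ε
      rw [hT]
      exact h2.sub h3
    have hanti : AntitoneOn T (Icc a b) := by
      refine antitoneOn_of_deriv_nonpos (convex_Icc a b) ?_ ?_ ?_
      · rw [hT]
        refine (cS.mul ?_).sub ?_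
        · exact (Real.continuous_exp.comp (by fun_prop)).continuousOn
        · exact (by fun_prop : Continuous fun s : ℝ => ε * (s - a)).continuousOn
      · rw [interior_Icc]
        exact fun s hs => (hdT s hs).differentiableAt.differentiableWithinAt
      · rw [interior_Icc]
        intro s hs
        rw [(hdT s hs).deriv]
        have h1 := hSb s hs
        have h2 : 0 < Real.exp (-(c * (s - a))) := Real.exp_pos _
        have h3 : Real.exp (-(c * (s - a))) ≤ 1 := by
          rw [Real.exp_le_one_iff]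
          have : 0 ≤ c * (s - a) := mul_nonneg hc0 (by linarith [hs.1])
          linarith
        have h4 : -2 * inner ℝ (D s) (E s) / (2 * S s) * Real.exp (-(c * (s - a)))
            ≤ (c * S s + ε) * Real.exp (-(c * (s - a))) := mul_le_mul_of_nonneg_right h1 h2.le
        have h5 : ε * Real.exp (-(c * (s - a))) ≤ ε * 1 := mul_le_mul_of_nonneg_left h3 hε
        nlinarith
    have h1 := hanti (left_mem_Icc.2 hab.le) ht ht.1
    rw [hT] at h1
    simp only [sub_self, mul_zero, neg_zero, Real.exp_zero, mul_one, sub_zero] at h1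
    have h2 : S a ≤ μ0 + κ := by
      refine abs_le_of_sq_le_sq' ?_ (by linarith) |>.2
      rw [hS2]
      have h3 : N a ≤ μ0 ^ 2 := by
        rw [hN]
        simp only []
        rw [hPn a ha, hD]
        refine le_trans (le_of_eq ?_) h0
        ring
      nlinarith [mul_nonneg hμ hκ.le]
    have h4 : Real.sqrt (N t) ≤ S t := by
      rw [hS]
      exact Real.sqrt_le_sqrt (by nlinarith [sq_nonneg κ])
    have h5 : S t * Real.exp (-(c * (t - a))) ≤ μ0 + κ + ε * (t - a) := by linarith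
    have h6 : S t = S t * Real.exp (-(c * (t - a))) * Real.exp (c * (t - a)) := by
      rw [mul_assoc, ← Real.exp_add]
      simp
    refine h4.trans ?_
    rw [h6]
    exact mul_le_mul_of_nonneg_right h5 (Real.exp_pos _).le
  have hfin : Real.sqrt (N t) ≤ (μ0 + ε * (t - a)) * Real.exp (c * (t - a)) := by
    refine le_of_forall_pos_le_add fun η hη => ?_
    have hE0 : 0 < Real.exp (c * (t - a)) := Real.exp_pos _
    have h1 := key (η / Real.exp (c * (t - a))) (by positivity)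
    refine h1.trans (le_of_eq ?_)
    field_simp
    ring
  have hNt : N t = (g * (t * ‖v t - w t‖)) ^ 2 + ‖q t - r t‖ ^ 2 := by
    rw [hN]
    simp only []
    rw [hPn t (ha.trans ht.1), hD]
    ring
  rw [← hNt]
  have h7 : θ * (t - a) / (2 * g) = c * (t - a) := by rw [hc]; ring
  rw [h7]
  have h8 := Real.sq_sqrt (hN0 t)
  rw [← h8]
  exact pow_le_pow_left₀ (Real.sqrt_nonneg _) hfin 2

/-- mean value inequality, the derivative being known in the open interval only -/
theorem mvt {f f' : ℝ → ℂ} {a b C : ℝ} (hab : a < b) (hc : ContinuousOn f (Icc a b))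
    (hd : ∀ t ∈ Ioo a b, HasDerivAt f (f' t) t) (hb : ∀ t ∈ Ioo a b, ‖f' t‖ ≤ C) :
    ‖f b - f a‖ ≤ C * (b - a) := by
  obtain ⟨e, he⟩ : ∃ e, e = f b - f a := ⟨_, rfl⟩
  obtain ⟨c, hc1, hc2⟩ := exists_hasDerivAt_eq_slope (fun t => inner ℝ e (f t))
    (fun t => inner ℝ e (f' t)) hab (continuousOn_const.inner hc) (fun t ht => by
      have h := (hasDerivAt_const t e).inner ℝ (hd t ht)
      simpa using h)
  have hba : 0 < b - a := sub_pos.2 hab
  have h1 : inner ℝ e (f b) - inner ℝ e (f a) = ‖e‖ ^ 2 := by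
    rw [← inner_sub_right, ← he, real_inner_self_eq_norm_sq]
  rw [h1, eq_div_iff hba.ne'] at hc2
  have h2 : inner ℝ e (f' c) ≤ ‖e‖ * C :=
    (real_inner_le_norm e (f' c)).trans (mul_le_mul_of_nonneg_left (hb c hc1) (norm_nonneg e))
  have h3 : ‖e‖ ^ 2 ≤ ‖e‖ * (C * (b - a)) := by
    rw [← hc2, ← mul_assoc]
    exact mul_le_mul_of_nonneg_right h2 hba.le
  rw [← he]
  rcases (norm_nonneg e).eq_or_lt with h4 | h4
  · rw [← h4]
    have h5 : 0 ≤ C := (norm_nonneg _).trans (hb c hc1)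
    positivity
  · rw [pow_two] at h3
    exact le_of_mul_le_mul_left h3 h4

/-- at the centre the two components agree -/
theorem zero : P1_zero := by
  intro E _ _ F t1 v q ht1 h
  have hmem : Ioo 0 t1 ∈ nhdsWithin (0 : ℝ) (Ioi 0) := Ioo_mem_nhdsGT ht1
  have h1 : HasDerivWithinAt (fun s : ℝ => s • v s) (q 0) (Ici 0) 0 := by
    refine hasDerivWithinAt_Ici_of_tendsto_deriv (s := Ioo 0 t1)
      (fun s hs => (h.dv s hs).differentiableAt.differentiableWithinAt) ?_ hmem ?_
    · have h2 : ContinuousOn (fun s : ℝ => s • v s) (Icc 0 t1) := continuousOn_id.smul h.cv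
      exact (h2 0 (left_mem_Icc.2 ht1.le)).mono Ioo_subset_Icc_self
    · have h2 : Filter.Tendsto q (nhdsWithin 0 (Ioi 0)) (nhds (q 0)) := by
        refine ((h.cq 0 (left_mem_Icc.2 ht1.le)).mono Ioo_subset_Icc_self).tendsto.mono_left ?_
        rw [nhdsWithin_le_iff]
        exact hmem
      refine h2.congr' ?_
      filter_upwards [hmem] with s hs
      exact (h.dv s hs).deriv.symm
  have h2 : HasDerivWithinAt (fun s : ℝ => s • v s) (v 0) (Ici 0) 0 := by
    rw [hasDerivWithinAt_iff_tendsto_slope]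
    have h3 : Filter.Tendsto v (nhdsWithin 0 (Ici 0 \ {0})) (nhds (v 0)) := by
      refine (h.cv 0 (left_mem_Icc.2 ht1.le)).tendsto.mono_left ?_
      rw [nhdsWithin_le_iff]
      have h4 : Icc (0 : ℝ) t1 ∈ nhdsWithin (0 : ℝ) (Ici 0) := Icc_mem_nhdsGE ht1
      exact nhdsWithin_mono _ sdiff_subset h4
    refine h3.congr' ?_
    filter_upwards [self_mem_nhdsWithin] with s hs
    have hs0 : s ≠ 0 := hs.2
    rw [slope_def_module]
    simp only [sub_zero, zero_smul]
    rw [smul_smul, inv_mul_cancel₀ hs0, one_smul]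
  exact (uniqueDiffWithinAt_Ici (0 : ℝ)).eq_deriv _ h2 h1

theorem boot : P4_boot := by
  intro F G a b g θ ε ρ μ0 μ1 v q w r ha hab hg hθ hε hμ hρ hv hw hF h0 hμ1 hc
  have hba : 0 ≤ b - a := sub_nonneg.2 hab.le
  have hexp : 1 ≤ Real.exp (θ * (b - a) / (2 * g)) := Real.one_le_exp (by positivity)
  have h01 : μ0 ≤ μ1 := by
    refine le_trans ?_ hμ1
    have h1 : μ0 ≤ μ0 + ε * (b - a) := by nlinarith
    exact h1.trans (le_mul_of_one_le_right (hμ.trans h1) hexp)
  have hμ10 : 0 ≤ μ1 := hμ.trans h01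
  -- the energy estimate as long as the tube condition holds
  have hen : ∀ c, a < c → c ≤ b → (∀ s ∈ Icc a c, ‖v s - w s‖ ≤ ρ) → ∀ t ∈ Icc a c,
      (g * (t * ‖v t - w t‖)) ^ 2 + ‖q t - r t‖ ^ 2 ≤ μ1 ^ 2 := by
    intro c hac hcb htube t ht
    have h := step F G a c g θ ε μ0 v q w r ha hac hg hθ hε hμ (sol_mono hv hcb)
      (sol_mono hw hcb) (fun s hs => hF s ⟨hs.1, hs.2.trans hcb⟩ (v s) (htube s hs)) h0 t ht
    have hta : 0 ≤ t - a := sub_nonneg.2 ht.1
    have htb : t ≤ b := ht.2.trans hcb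
    refine h.trans (pow_le_pow_left₀ (by positivity) (le_trans ?_ hμ1) 2)
    gcongr
  have hcn : ContinuousOn (fun s => ‖v s - w s‖) (Icc a b) := (hv.cv.sub hw.cv).norm
  -- the tube condition holds everywhere
  have htube : ∀ t ∈ Icc a b, ‖v t - w t‖ < ρ := by
    by_contra hcon
    push Not at hcon
    obtain ⟨t0, ht0, ht0'⟩ := hcon
    have hclosed : IsClosed (Icc a b ∩ (fun s => ‖v s - w s‖) ⁻¹' (Ici ρ)) :=
      hcn.preimage_isClosed_of_isClosed isClosed_Icc isClosed_Ici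
    have hcomp : IsCompact (Icc a b ∩ (fun s => ‖v s - w s‖) ⁻¹' (Ici ρ)) :=
      isCompact_Icc.of_isClosed_subset hclosed inter_subset_left
    obtain ⟨c, hc1, hc2⟩ := hcomp.exists_isLeast ⟨t0, ht0, ht0'⟩
    have hca : ‖v c - w c‖ ≥ ρ := hc1.2
    have hcb : c ≤ b := hc1.1.2
    have hlt : ∀ s ∈ Ico a c, ‖v s - w s‖ < ρ := by
      intro s hs
      by_contra hcon
      exact absurd (hc2 ⟨⟨hs.1, hs.2.le.trans hcb⟩, not_lt.1 hcon⟩) (not_le.2 hs.2)
    have hac : a < c := by
      refine lt_of_le_of_ne hc1.1.1 fun hac => ?_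
      rw [← hac] at hca
      rcases hc with ⟨ha0, hc⟩ | ⟨ha0, hc⟩
      · have h1 : g * (a * ‖v a - w a‖) ≤ μ0 := by
          refine abs_le_of_sq_le_sq' ?_ hμ |>.2
          nlinarith [sq_nonneg ‖q a - r a‖]
        have h2 : g * a * ρ ≤ g * (a * ‖v a - w a‖) := by
          rw [mul_assoc]
          gcongr
        linarith
      · subst ha0
        have h1 : ‖q 0 - r 0‖ ≤ μ0 := by
          refine abs_le_of_sq_le_sq' ?_ hμ |>.2
          nlinarith [sq_nonneg (g * (0 * ‖v 0 - w 0‖))]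
        rw [← zero ℂ F b v q hab hv, ← zero ℂ G b w r hab hw] at h1
        linarith
    have hle : ∀ s ∈ Icc a c, ‖v s - w s‖ ≤ ρ := by
      intro s hs
      rcases eq_or_lt_of_le hs.2 with h1 | h1
      · subst h1
        have h2 : Filter.Tendsto (fun s => ‖v s - w s‖) (nhdsWithin s (Ico a s))
            (nhds ‖v s - w s‖) :=
          ((hcn s ⟨hs.1, hcb⟩).mono
            (Ico_subset_Icc_self.trans (Icc_subset_Icc_right hcb))).tendsto
        have : (nhdsWithin s (Ico a s)).NeBot := by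
          rw [← mem_closure_iff_nhdsWithin_neBot, closure_Ico hac.ne]
          exact right_mem_Icc.2 hac.le
        refine le_of_tendsto h2 ?_
        filter_upwards [self_mem_nhdsWithin] with u hu
        exact (hlt u hu).le
      · exact (hlt s ⟨hs.1, h1⟩).le
    have hE := hen c hac hcb hle
    rcases hc with ⟨ha0, hc⟩ | ⟨ha0, hc⟩
    · have h1 : g * (c * ‖v c - w c‖) ≤ μ1 := by
        refine abs_le_of_sq_le_sq' ?_ hμ10 |>.2
        have := hE c (right_mem_Icc.2 hac.le)
        nlinarith [sq_nonneg ‖q c - r c‖]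
      have hc0 : 0 ≤ c := ha0.le.trans hac.le
      have h2 : g * a * ρ ≤ g * (c * ‖v c - w c‖) := by
        rw [mul_assoc]
        gcongr
      linarith
    · subst ha0
      have h1 : ∀ s ∈ Ioo 0 c, ‖q s - r s‖ ≤ μ1 := by
        intro s hs
        refine abs_le_of_sq_le_sq' ?_ hμ10 |>.2
        have := hE s (Ioo_subset_Icc_self hs)
        nlinarith [sq_nonneg (g * (s * ‖v s - w s‖))]
      have h2 := mvt (f := fun t : ℝ => t • (v t - w t)) (f' := fun t => q t - r t) hac
        ((continuousOn_id.smul (hv.cv.sub hw.cv)).mono (Icc_subset_Icc_right hcb))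
        (fun t ht => dP hv hw t ⟨ht.1, ht.2.trans_le hcb⟩) h1
      simp only [zero_smul, sub_zero, norm_smul, Real.norm_eq_abs, abs_of_pos hac] at h2
      rw [mul_comm c] at h2
      have h3 := le_of_mul_le_mul_right h2 hac
      linarith
  intro t ht
  exact ⟨hen b hab le_rfl (fun s hs => (htube s hs).le) t ht, htube t ht⟩

end Pool.Agent.W2helper95.LN.P4
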